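import Pool.Agent.H943R5.GC.FinalB

set_option autoImplicit false

/-!
# The gauge size of the set of oracles with an optimal proof system for tautologies

The proof is in the modules `Pool.Agent.H943R5.GC` of helper943 and others.
-/

namespace Pool.Agent.Results.MP_0532f7_lc.GaugeSize

open Pool.Agent.H628R3.RO
open Pool.Agent.H620R2 (Gauge.Null)

/-- The logarithm to base `2`, four times. -/
noncomputable def log4 (N : ℕ) : ℝ :=
  Real.logb 2 (Real.logb 2 (Real.logb 2 (Real.logb 2 (N : ℝ))))

/-- Relative to `A` some `coNP`-complete set has an optimal proof system. -/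
def HasOptimal (A : Oracle) : Prop :=
  ∃ L : Set (List Bool), IsCoNP A L ∧ CoNPHardRel A L ∧ ∃ P, IsOptimal A L P

/-- The set of the oracles relative to which some `coNP`-complete set has an optimal proof system
is null for all gauges that are bounded infinitely often (in particular it has measure zero), but
it is not null for any gauge above `(log log log log N) ^ s`, `s > 1`. -/
theorem result (f : ℕ → ℝ) :
    (∀ C : ℝ, (∃ᶠ N : ℕ in Filter.atTop, f N ≤ C) → Gauge.Null f {A | HasOptimal A}) ∧
    ∀ s : ℝ, 1 < s → (∀ᶠ N : ℕ in Filter.atTop, log4 N ^ s ≤ f N) →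
      ¬ Gauge.Null f {A | HasOptimal A} :=
  Pool.Agent.H943R5.GC.g_opt f

end Pool.Agent.Results.MP_0532f7_lc.GaugeSize
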